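import Pool.Agent.Helper156.PercCov

/-!
# Approximate decorrelation of connection events in bond percolation

If `P(ab|c) < ε ^ 4 / 640` then `P(abc) - P(ac) P(bc) < ε`.
-/

namespace Pool.Agent.Results.MP_07f1b5_pr.Decorrelation

open Finset

universe u

open Classical in
/-- The probability of the event `A` in Bernoulli bond percolation on the finite simple graph
`G`: every edge `e` of `G` is open with probability `p e`, independently, `S` is the set of open
edges, and `A` is an event on the open subgraph (the spanning subgraph of `G` with edge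
set `S`). -/
noncomputable def prob {V : Type u} [Fintype V] [DecidableEq V] (G : SimpleGraph V)
    (p : Sym2 V → ℝ) (A : SimpleGraph V → Prop) : ℝ :=
  ∑ S ∈ G.edgeFinset.powerset,
    ((∏ e ∈ S, p e) * ∏ e ∈ G.edgeFinset \ S, (1 - p e)) *
      (if A (SimpleGraph.fromEdgeSet (S : Set (Sym2 V))) then 1 else 0)

open Helper156.Perc

open Classical in
theorem prob_eq {V : Type u} [Fintype V] [DecidableEq V] (G : SimpleGraph V)
    (p : Sym2 V → ℝ) (A : SimpleGraph V → Prop) :
    prob G p A = P (fun e => if e ∈ G.edgeFinset then p e else 0) G.edgeFinset ∅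
      (fun T => A (SimpleGraph.fromEdgeSet (T : Set (Sym2 V)))) := by
  unfold prob P Ev
  apply Finset.sum_congr rfl
  intro S hS
  rw [Finset.mem_powerset] at hS
  have h1 : ∏ e ∈ S, (if e ∈ G.edgeFinset then p e else 0) = ∏ e ∈ S, p e := by
    apply Finset.prod_congr rfl
    intro e he
    rw [if_pos (hS he)]
  have h2 : ∏ e ∈ G.edgeFinset \ S, (1 - (if e ∈ G.edgeFinset then p e else 0)) =
      ∏ e ∈ G.edgeFinset \ S, (1 - p e) := by
    apply Finset.prod_congr rfl
    intro e he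
    rw [if_pos (Finset.mem_sdiff.mp he).1]
  rw [h1, h2, Finset.empty_union]

/-- the final arithmetic -/
theorem final_arith {ε s x : ℝ} (hε : 0 < ε) (hε1 : ε ≤ 1) (hs0 : 0 ≤ s)
    (hs : s < ε ^ 4 / 640) : B2 (ε / 4) (ε ^ 3 / 64) s x < ε := by
  unfold B2
  have hκ : 0 < ε ^ 3 / 64 := by positivity
  have h1 : s / (ε ^ 3 / 64) ≤ ε / 10 := by
    rw [div_le_iff₀ hκ]
    have : ε / 10 * (ε ^ 3 / 64) = ε ^ 4 / 640 := by ring
    linarith
  have h2 : 5 * (ε ^ 3 / 64) / (2 * (ε / 4) ^ 2) = 5 / 8 * ε := by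
    field_simp
    norm_num
  have h3 : x * (1 - x) ≤ 1 / 4 := by nlinarith [sq_nonneg (x - 1 / 2)]
  have h4 : 5 / 8 * ε * (x * (1 - x)) ≤ 5 / 8 * ε * (1 / 4) :=
    mul_le_mul_of_nonneg_left h3 (by positivity)
  have h5 : 1 / (2 * (ε ^ 3 / 64)) * (s * (1 - s)) ≤ 1 / 2 * (s / (ε ^ 3 / 64)) := by
    have e1 : 1 / 2 * (s / (ε ^ 3 / 64)) = 1 / (2 * (ε ^ 3 / 64)) * s := by
      field_simp
    rw [e1]
    apply mul_le_mul_of_nonneg_left _ (by positivity)
    nlinarith [sq_nonneg s]
  have h6 : ε ^ 3 / 64 ≤ ε / 64 := by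
    have : ε ^ 3 ≤ ε := by
      calc ε ^ 3 = ε * ε ^ 2 := by ring
        _ ≤ ε * 1 := mul_le_mul_of_nonneg_left (pow_le_one₀ hε.le hε1) hε.le
        _ = ε := mul_one _
    linarith
  rw [h2]
  linarith

/-- **Theorem.** For every `ε > 0` there is `δ > 0` (one may take `δ = ε ^ 4 / 640`) such that
for every finite simple graph `G`, all edge probabilities `p e ∈ [0, 1]` and all distinct
vertices `a, b, c`: if `P(ab|c) < δ` then `P(abc) - P(ac) P(bc) < ε`. -/
theorem result : ∀ ε : ℝ, 0 < ε → ∃ δ : ℝ, δ = ε ^ 4 / 640 ∧ 0 < δ ∧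
    ∀ (V : Type u) [Fintype V] [DecidableEq V] (G : SimpleGraph V) (p : Sym2 V → ℝ),
      (∀ e ∈ G.edgeSet, 0 ≤ p e ∧ p e ≤ 1) →
      ∀ a b c : V, a ≠ b → a ≠ c → b ≠ c →
        prob G p (fun H => H.Reachable a b ∧ ¬ H.Reachable a c) < δ →
        prob G p (fun H => H.Reachable a b ∧ H.Reachable a c) -
          prob G p (fun H => H.Reachable a c) * prob G p (fun H => H.Reachable b c) < ε := by
  intro ε hε
  refine ⟨ε ^ 4 / 640, rfl, by positivity, ?_⟩
  intro V _ _ G p hp a b c _ _ _ h1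
  classical
  set q : Sym2 V → ℝ := fun e => if e ∈ G.edgeFinset then p e else 0 with hq
  have hq01 : ∀ e, 0 ≤ q e ∧ q e ≤ 1 := by
    intro e
    by_cases he : e ∈ G.edgeFinset
    · have : q e = p e := by simp only [hq]; rw [if_pos he]
      rw [this]
      exact hp e (SimpleGraph.mem_edgeFinset.mp he)
    · have : q e = 0 := by simp only [hq]; rw [if_neg he]
      rw [this]
      exact ⟨le_refl _, zero_le_one⟩
  rw [prob_eq] at h1
  rw [prob_eq, prob_eq, prob_eq]
  change P q G.edgeFinset ∅ (fun T => R T a b ∧ ¬ R T a c) < _ at h1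
  change P q G.edgeFinset ∅ (fun T => R T a b ∧ R T a c) -
    P q G.edgeFinset ∅ (fun T => R T a c) * P q G.edgeFinset ∅ (fun T => R T b c) < ε
  rcases le_or_gt ε 1 with hε1 | hε1
  · have hmain := cov_ineq hq01 (l := ε / 4) (κ := ε ^ 3 / 64) (by positivity) (by linarith)
      (by positivity) a b c _ G.edgeFinset ∅ rfl
    exact lt_of_le_of_lt hmain (final_arith hε hε1 (P_nonneg hq01 _) h1)
  · have k1 := P_le_one (E := G.edgeFinset) (O := ∅) hq01 (fun T => R T a b ∧ R T a c)
    have k2 := mul_nonneg (P_nonneg (E := G.edgeFinset) (O := ∅) hq01 (fun T => R T a c))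
      (P_nonneg (E := G.edgeFinset) (O := ∅) hq01 (fun T => R T b c))
    linarith

end Pool.Agent.Results.MP_07f1b5_pr.Decorrelation
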